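import Mathlib
import Pool.Agent.Lib.MP_1454e8_lc.TDefs
import Pool.Agent.Lib.MP_1454e8_lc.S12Real
import Pool.Agent.Lib.MP_1454e8_lc.S13Blob
import Pool.Agent.Lib.MP_1454e8_lc.T2Comp

/-! There is a model `(M, ∈)` of `ZF` in which every compact metrizable space is separable, while
some countable product of compact metrizable spaces is not separable.  So the statement `M(C, S)`
does not imply `CPM_le(C, S)` in `ZF`, and the four statements of the problem are not
pairwise equivalent. -/

set_option autoImplicit false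

namespace Pool.Agent.Results.MP_1454e8_lc.NotEquivalent

open Pool.Agent.Lib.MP_f5c99b_lc Pool.Agent.Sym

theorem result : ∃ (M : Type 1) (_ : Membership M M), IsModelOfZF M ∧ Nonempty (RealField M) ∧
    ∀ K : RealField M, MCS K ∧ ¬ CPMS K := by
  refine ⟨Mod (Cond (Set ℕ) (Set ℕ)) (sys (Set ℕ)), inferInstance, isModelOfZF,
    exists_realField fun p hp => ?_, fun K => ⟨fun X T hT hc hm => ?_, not_CPMS K badFam_AA⟩⟩
  · obtain ⟨q, hq, -⟩ := exists_lower p hp
    exact ⟨q, hq⟩
  · obtain ⟨U, hU, h⟩ := exists_HM K hT hc hm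
    exact h (HM_CM X U hU)

end Pool.Agent.Results.MP_1454e8_lc.NotEquivalent
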